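import Mathlib
import Pool.Agent.Run7.h980.BD.Fin

/-!
# The Navier-Stokes equations with Dirichlet boundary conditions in any bounded open set, under
doubly exponentially sparse scalar constraints: blow-up at interior points and at boundary points,
failure of `∂ₜu ∈ L^∞(0,T;H)` for large `T`

The velocity is in a linear space `W` of fields of `H` and the weak formulation is tested with the
fields of `V` which are in `W`. The space `W` may be very large: all fields of `H` which are
orthogonal to test fields `g n i`, `n ≥ 0`, `i < 3`, where `g n i` is supported in the ball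
`|x - z| ≤ 2^(-q^(n-1))`, `q > 1`, for `n ≥ 3`: there are only `O(log log (1/s))` scalar
constraints which are not supported in the ball `|x - z| < s`. The point `z` may lie on the
boundary of `Ω`: it is the vertex of a truncated cone contained in `Ω`.
-/

namespace Pool.Agent.Results.MP_fd8964_an.DirichletLogLog

open Set Filter Topology MeasureTheory
open scoped ContDiff
open Pool.Agent.Run7.h980.DW (E3 IsTest IsSteady)
open Pool.Agent.Run7.h980.BD

/-- Let `Ω` be a bounded open subset of `ℝ³`, `1 < q < 5/4`, `q ≤ 1 + δ/4`, `U` a smooth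
divergence-free field with compact support in `Ω`, and `z` a point off the support of `U`, in `Ω`
or on its boundary, such that `Ω` contains a truncated cone
`{z + y : 0 < y₃ ≤ ρ₀, 3 |y₁| ≤ y₃, 3 |y₂| ≤ y₃}` with vertex `z`.

(A) Suppose that `U` is not a steady Euler flow. Then there are modes and constraint fields in `Ω`
with `p 0 = U`, and `A₀ > 0`, such that for every viscosity `ν > 0` and every amplitude
`a ≥ A₀ ν` there is blow-up at `z` before the time `A₀ / a` from the datum `a U`: no solution with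
the datum `a U` of the Dirichlet problem, projected on any admissible space, has
`∂ₜu ∈ L^∞(0,S;L²)` on an interval `(0,S)` with `S ≥ A₀ / a`.

(B) For all `0 < r < 3`, `ε > 0` and `N` there are a test field `F` in `Ω` supported in the ball
`|x - z| ≤ ε` with `∫ |F|^r ≤ ε`, and modes and constraint fields in `Ω` with `p 0 = U + F`, such
that for every viscosity `0 < ν ≤ N` there is blow-up at `z` before the time `ε` from the datum
`U + F`. -/
theorem result (Ω : Set E3) (hΩ : IsOpen Ω) (hb : Bornology.IsBounded Ω)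
    (δ q : ℝ) (hq : 1 < q) (hq' : q < 5 / 4) (hδ : q ≤ 1 + δ / 4)
    (U : E3 → E3) (hU : IsTest Ω U) (z : E3) (hz : z ∉ tsupport U)
    (ρ₀ : ℝ) (hρ : 0 < ρ₀) (hcone : cone z ρ₀ ⊆ Ω) :
    (¬ IsSteady U → ∃ (p : ℕ → E3 → E3) (g : ℕ → Fin 3 → E3 → E3), IsFamily Ω q z U p g ∧
      ∃ A₀ > 0, ∀ ν > 0, ∀ a > 0, A₀ * ν ≤ a →
        BlowsUp Ω δ z p g ν (fun x => a • U x) (A₀ / a)) ∧
    (∀ r ε N : ℝ, 0 < r → r < 3 → 0 < ε → ∃ F : E3 → E3, IsTest Ω F ∧
      (∀ x, F x ≠ 0 → ‖x - z‖ ≤ ε) ∧ ∫ x, ‖F x‖ ^ r ≤ ε ∧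
      ∃ (p : ℕ → E3 → E3) (g : ℕ → Fin 3 → E3 → E3), IsFamily Ω q z (fun x => U x + F x) p g ∧
        ∀ ν, 0 < ν → ν ≤ N → BlowsUp Ω δ z p g ν (fun x => U x + F x) ε) := by
  have hΩm : MeasurableSet Ω := hΩ.measurableSet
  have hz' : ∀ᶠ x in 𝓝 z, U x = 0 := notMem_tsupport_iff_eventuallyEq.1 hz
  set K : Set E3 := tsupport U ∪ {x | x - z ∈ Run7.h407.G.X.C980.CC ρ₀} with hK
  have hKc : IsCompact K := hU.compact.isCompact.union (cc_compact z ρ₀)
  have hKΩ : K \ {z} ⊆ Ω := by
    rintro x ⟨hx | hx, hxz⟩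
    · exact hU.supp hx
    · exact hcone (cc_sub_cone hx hxz)
  have key : ∀ r, r ≤ ρ₀ → ∀ {p : ℕ → E3 → E3} {g : ℕ → Fin 3 → E3 → E3},
      Run7.h407.G.X.C980.Sup (fun x => x ∈ tsupport U ∨ x - z ∈ Run7.h407.G.X.C980.CC r) z p g →
      Run7.h407.G.X.C980.Sup (fun x => x ∈ K) z p g := by
    intro r hr p g h
    apply h.mono
    rintro x (hx | hx)
    · exact Or.inl hx
    · exact Or.inr (Run7.h407.G.X.C980.CC_mono hr hx)
  refine ⟨fun hUs => ?_, fun r ε N hr hr3 hε => ?_⟩
  · have hns : ∃ i x, Run7.h407.G.X.om i (Run7.h407.adv U U) x ≠ 0 := by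
      by_contra hcon
      push Not at hcon
      apply hUs
      intro i j x
      have h1 := Run7.h407.G.X.wg_le (Run7.h407.adv U U) i j x
      simp only [hcon, abs_zero, Finset.sum_const_zero] at h1
      have h2 := abs_nonpos_iff.1 h1
      unfold Run7.h407.G.X.wg at h2
      exact sub_eq_zero.1 h2
    obtain ⟨p, g, ρ, hF, hs, A₀, hA, H⟩ :=
      Run7.h407.G.X.C980.mainA1 δ q hq hq' hδ ⟨hU.smooth, hU.compact⟩ hU.div_free hns hz' hρ
    have hs' := key ρ₀ le_rfl hs
    exact ⟨p, g, family_of hΩm hKc.isClosed hKΩ hF hs', A₀, hA, fun ν hν a ha haν =>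
      blowsUp_of hΩm hb hKc hKΩ hν hF hs' (H ν hν.le a ha haν)⟩
  · have hε' : 0 < min ε ρ₀ := lt_min hε hρ
    obtain ⟨F, f1, f2, f3, f5, f4, p, g, ρ, hF, hs, H⟩ :=
      Run7.h407.G.X.C980.mainB1 δ q hq hq' hδ ⟨hU.smooth, hU.compact⟩ hU.div_free hz' (N := N)
        hr hr3 hε'
    have hs' := key (min ε ρ₀) (min_le_right _ _) hs
    refine ⟨F, ⟨f1.sm, f1.cs, ?_, f2⟩, fun x hx => (f3 x hx).2.2.trans (min_le_left _ _),
      f4.trans (min_le_left _ _), p, g, family_of hΩm hKc.isClosed hKΩ hF hs',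
      fun ν hν hνN => ?_⟩
    · refine (tsupp_sub (cc_compact z ρ₀).isClosed (fun x hx => hcone (cc_sub_cone hx.1 hx.2))
        (fun x hx => ?_) f5).trans sdiff_subset
      by_contra hcon
      exact hx (Run7.h407.G.X.C980.CC_mono (min_le_right _ _) (f3 x hcon))
    · obtain ⟨T, h1, h2, h3⟩ := blowsUp_of hΩm hb hKc hKΩ hν hF hs' (H ν hν.le hνN)
      exact ⟨T, h1, h2.trans (min_le_left _ _), h3⟩

end Pool.Agent.Results.MP_fd8964_an.DirichletLogLog
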